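import Pool.Agent.SPG.CCJ

set_option autoImplicit false

namespace Pool.Agent.Results.MP_f53b3d_al.CommutingCopies

open Filter
open scoped Pointwise

universe u v

/-- A group `G` is supramenable if for every nonempty `A ⊆ G` there is a finitely additive,
left-invariant `μ : 𝒫(G) → [0, ∞]` defined on all subsets of `G` with `μ A = 1`. -/
def Supramenable (G : Type*) [Group G] : Prop :=
  ∀ A : Set G, A.Nonempty → ∃ μ : Set G → ENNReal,
    (∀ S T : Set G, Disjoint S T → μ (S ∪ T) = μ S + μ T) ∧
    (∀ (g : G) (S : Set G), μ ((fun x => g * x) '' S) = μ S) ∧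
    μ A = 1

open Classical in
/-- A group has locally subexponential growth: for every finite `S ⊆ G` and every real `c > 1` one
has `|S ^ n| ≤ c ^ n` for all large `n`, where `S ^ n` is the set of all products of `n` elements
of `S` (equivalently: every finitely generated subgroup has subexponential growth). -/
def LocallySubexponential (G : Type*) [Group G] : Prop :=
  ∀ (S : Finset G) (c : ℝ), 1 < c → ∀ᶠ n : ℕ in atTop, ((S ^ n).card : ℝ) ≤ c ^ n

/-- The class of groups `G` with a subgroup `K` of finite index such that every finite subset of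
`K` lies in the subgroup generated by finitely many pairwise commuting subgroups `A i` of `G`, each
of which has locally subexponential growth or commutes elementwise with the image of an injective
homomorphism `f : A i → G`, for example with a conjugate of itself. -/
def Fragmented (G : Type u) [Group G] : Prop :=
  ∃ K : Subgroup G, K.FiniteIndex ∧ ∀ S : Finset G, (∀ s ∈ S, s ∈ K) →
    ∃ (m : ℕ) (A : Fin m → Subgroup G),
      (∀ i j, i ≠ j → ∀ x ∈ A i, ∀ y ∈ A j, x * y = y * x) ∧
      (∀ i, LocallySubexponential (A i) ∨
        ∃ f : A i →* G, Function.Injective f ∧ ∀ x y : A i, (x : G) * f y = f y * x) ∧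
      ∀ s ∈ S, s ∈ ⨆ i, A i

/-- The rigid stabilizer of a set `U` of points of a `G`-set: all elements of `G` which fix every
point outside of `U`. -/
def Rigid (G : Type u) [Group G] {Ω : Type v} [MulAction G Ω] (U : Set Ω) : Subgroup G where
  carrier := {g | ∀ x, x ∉ U → g • x = x}
  mul_mem' := by
    intro a b ha hb x hx
    rw [mul_smul, hb x hx, ha x hx]
  one_mem' := fun x _ => one_smul _ x
  inv_mem' := by
    intro a ha x hx
    rw [inv_smul_eq_iff]
    exact (ha x hx).symm

/-- For levels `V n` and parent maps `par n`: the ancestor of level `n` of a vertex of level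
`n + m`. -/
def anc {V : ℕ → Type} (par : ∀ n, V (n + 1) → V n) (n : ℕ) : ∀ m : ℕ, V (n + m) → V n
  | 0, w => w
  | m + 1, w => anc par n m (par (n + m) w)

/-- The subtree below the vertex `v` of level `n`, in the set of all vertices. -/
def Below {V : ℕ → Type} (par : ∀ n, V (n + 1) → V n) (n : ℕ) (v : V n) : Set (Σ k, V k) :=
  {x | ∃ (m : ℕ) (w : V (n + m)), x = ⟨n + m, w⟩ ∧ anc par n m w = v}

/-- `G` is a branch group: it acts faithfully by automorphisms on a rooted tree, given by its
finite levels `V n` and the parent maps `par n : V (n + 1) → V n`, in which every vertex has at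
least two children, transitively on every level, and for every `n` the rigid stabilizers of the
vertices of level `n` generate a subgroup of finite index. -/
def IsBranch (G : Type u) [Group G] : Prop :=
  ∃ (V : ℕ → Type) (_ : ∀ n, MulAction G (V n)) (par : ∀ n, V (n + 1) → V n),
    (∀ n, Finite (V n)) ∧ Nonempty (V 0) ∧ Subsingleton (V 0) ∧
    (∀ n (v : V n), ∃ w w' : V (n + 1), w ≠ w' ∧ par n w = v ∧ par n w' = v) ∧
    (∀ n (g : G) (w : V (n + 1)), par n (g • w) = g • par n w) ∧
    (∀ g : G, (∀ n (v : V n), g • v = v) → g = 1) ∧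
    (∀ n (v w : V n), ∃ g : G, g • v = w) ∧
    ∀ n, (⨆ v : V n, Rigid G (Below par n v)).FiniteIndex

theorem frag_of_branch {G : Type u} [Group G] (h : IsBranch G) : SPG.CCJ.Frag G := by
  obtain ⟨V, act, par, hfin, hne, -, hbr, heq, hf, htr, hri⟩ := h
  have hanc : ∀ (m : ℕ) (g : G) (w : V (1 + m)), anc par 1 m (g • w) = g • anc par 1 m w := by
    intro m
    induction m with
    | zero => intro g w; rfl
    | succ m ih =>
      intro g w
      change anc par 1 m (par (1 + m) (g • w)) = g • anc par 1 m (par (1 + m) w)
      rw [heq, ih]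
  refine SPG.CCJ.frag_of_blocks (Ω := Σ m, V (1 + m)) (V := V 1) (fun x => anc par 1 x.1 x.2)
    (fun g x => hanc x.1 g x.2) (fun g hg => hf g ?_) (htr 1) ?_ ?_
  · have h1 : ∀ (m : ℕ) (w : V (1 + m)), g • w = w := by
      intro m w
      have h2 := hg ⟨m, w⟩
      rw [Sigma.smul_mk] at h2
      exact eq_of_heq (Sigma.mk.inj h2).2
    intro n v
    rcases Nat.eq_zero_or_pos n with rfl | hn
    · obtain ⟨w, -, -, hw, -⟩ := hbr 0 v
      have h2 : g • w = w := h1 0 w
      rw [← hw, ← heq, h2]
    · obtain ⟨m, rfl⟩ : ∃ m, n = 1 + m := ⟨n - 1, by omega⟩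
      exact h1 m v
  · obtain ⟨v⟩ := hne
    obtain ⟨w, w', hw, -⟩ := hbr 0 v
    exact ⟨w, w', hw⟩
  · have := hri 1
    refine Subgroup.finiteIndex_of_le (iSup_mono fun v => ?_ : (⨆ v : V 1,
      Rigid G (Below par 1 v)) ≤ _)
    intro g hg x hx
    obtain ⟨m, w⟩ := x
    rw [Sigma.smul_mk]
    have h3 : (⟨1 + m, w⟩ : Σ k, V k) ∉ Below par 1 v := by
      rintro ⟨m', w', h4, h5⟩
      have h6 : m = m' := by
        have := (Sigma.mk.inj h4).1
        omega
      subst h6
      have h7 : w = w' := eq_of_heq (Sigma.mk.inj h4).2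
      subst h7
      exact hx h5
    have h8 := hg _ h3
    rw [Sigma.smul_mk] at h8
    have h9 : g • w = w := eq_of_heq (Sigma.mk.inj h8).2
    rw [h9]

/-- **Theorem.** Let `G` be a branch group, or more generally a group of the class `Fragmented`.
Then `G` is supramenable if and only if it has locally subexponential growth, and for every group
`H` the product `G × H` is supramenable if and only if `G` and `H` are supramenable. -/
theorem result (G : Type u) [Group G] (hG : IsBranch G ∨ Fragmented G) :
    (Supramenable G ↔ LocallySubexponential G) ∧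
      ∀ (H : Type v) [Group H], Supramenable (G × H) ↔ Supramenable G ∧ Supramenable H := by
  have h1 : SPG.CCJ.Frag G := hG.elim frag_of_branch id
  exact ⟨SPG.CCJ.frag_iff h1, fun H _ => SPG.CCJ.frag_prod h1 H⟩

end Pool.Agent.Results.MP_f53b3d_al.CommutingCopies
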