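import Pool.Agent.SPG.All

set_option autoImplicit false

namespace Pool.Agent.Results.MP_f53b3d_al.ProductIff

open Filter
open scoped Pointwise

universe u v

/-- A group `G` is supramenable if for every nonempty `A ⊆ G` there is a finitely additive,
left-invariant `μ : 𝒫(G) → [0, ∞]` defined on all subsets of `G` with `μ A = 1`. -/
def Supramenable (G : Type*) [Group G] : Prop :=
  ∀ A : Set G, A.Nonempty → ∃ μ : Set G → ENNReal,
    (∀ S T : Set G, Disjoint S T → μ (S ∪ T) = μ S + μ T) ∧
    (∀ (g : G) (S : Set G), μ ((fun x => g * x) '' S) = μ S) ∧
    μ A = 1

open Classical in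
/-- A finite subset `S` of a group has subexponential growth: for every real `c > 1` one has
`|S ^ n| ≤ c ^ n` for all large `n`, where `S ^ n` is the set of all products of `n` elements
of `S`. -/
def SubexponentialSet {G : Type*} [Group G] (S : Finset G) : Prop :=
  ∀ c : ℝ, 1 < c → ∀ᶠ n : ℕ in atTop, ((S ^ n).card : ℝ) ≤ c ^ n

/-- A group has locally subexponential growth if all its finite subsets have subexponential
growth (equivalently: every finitely generated subgroup has subexponential growth). -/
def LocallySubexponential (G : Type*) [Group G] : Prop := ∀ S : Finset G, SubexponentialSet S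

/-- **Theorem.** (1) A direct product `G × H` is supramenable if and only if `G` and `H` are
supramenable and at least one of them has locally subexponential growth.  (2) `G × G` is
supramenable if and only if `G` has locally subexponential growth.  (3) Products of two
supramenable groups are always supramenable if and only if every supramenable group has locally
subexponential growth.  (4) If finite subsets `S` and `T` of a supramenable group commute
elementwise then one of them has subexponential growth. -/
theorem result :
    (∀ (G : Type u) (H : Type v) [Group G] [Group H],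
      Supramenable (G × H) ↔
        Supramenable G ∧ Supramenable H ∧ (LocallySubexponential G ∨ LocallySubexponential H)) ∧
    (∀ (G : Type u) [Group G], Supramenable (G × G) ↔ LocallySubexponential G) ∧
    ((∀ (G H : Type u) [Group G] [Group H],
        Supramenable G → Supramenable H → Supramenable (G × H)) ↔
      ∀ (G : Type u) [Group G], Supramenable G → LocallySubexponential G) ∧
    (∀ (Γ : Type u) [Group Γ], Supramenable Γ → ∀ S T : Finset Γ,
      (∀ s ∈ S, ∀ t ∈ T, s * t = t * s) → SubexponentialSet S ∨ SubexponentialSet T) := by
  refine ⟨fun G H _ _ => SPG.thmPRD G H, fun G _ => SPG.square SPG.thmCOM G,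
    SPG.quest SPG.thmCOM, ?_⟩
  intro Γ _ hΓ S T hST
  by_contra hcon
  push Not at hcon
  obtain ⟨h1, h2⟩ := hcon
  unfold SubexponentialSet at h1 h2
  push Not at h1 h2
  obtain ⟨c1, hc1, h1⟩ := h1
  obtain ⟨c2, hc2, h2⟩ := h2
  refine SPG.thmCOM Γ S T (min c1 c2) (lt_min hc1 hc2) ?_ ?_ hST hΓ
  · refine h1.mono fun n hn => ?_
    exact (pow_le_pow_left₀ (by positivity) (min_le_left _ _) n).trans_lt hn
  · refine h2.mono fun n hn => ?_
    exact (pow_le_pow_left₀ (by positivity) (min_le_right _ _) n).trans_lt hn

end Pool.Agent.Results.MP_f53b3d_al.ProductIff
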